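import Pool.Agent.Helper30.SY.St2

set_option autoImplicit false

namespace Pool.Agent.Helper13.SY

open Finset Pool.Agent.Helper30.SY

private theorem rk_lt {n : ℕ} (Q : Finset (Fin n)) (ρ : Fin n → ℕ) (x y : Fin n) (hx : x ∈ Q)
    (h : ρ x < ρ y) : rk Q ρ x < rk Q ρ y := by
  unfold rk
  apply Finset.card_lt_card
  rw [Finset.ssubset_iff_of_subset]
  · exact ⟨x, by simp [hx, h], by simp⟩
  · intro z hz
    rw [Finset.mem_filter] at hz ⊢
    exact ⟨hz.1, hz.2.trans h⟩

private theorem rk_inj {n : ℕ} (Q : Finset (Fin n)) (ρ : Fin n → ℕ)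
    (hρ : ∀ x ∈ Q, ∀ y ∈ Q, ρ x = ρ y → x = y) (x : Fin n) (hx : x ∈ Q) (y : Fin n) (hy : y ∈ Q)
    (h : rk Q ρ x = rk Q ρ y) : x = y := by
  rcases lt_trichotomy (ρ x) (ρ y) with h1 | h1 | h1
  · exact absurd h (rk_lt Q ρ x y hx h1).ne
  · exact hρ x hx y hy h1
  · exact absurd h (rk_lt Q ρ y x hy h1).ne'

private theorem between {n : ℕ} (Q : Finset (Fin n)) (f : Fin n → ℕ)
    (hf : ∀ x ∈ Q, ∀ y ∈ Q, f x = f y → x = y) (α β : ℝ) :
    ((Q.filter fun u => α ≤ (f u : ℝ) ∧ (f u : ℝ) ≤ β).card : ℝ) ≤ |β - α| + 1 := by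
  set T := Q.filter fun u => α ≤ (f u : ℝ) ∧ (f u : ℝ) ≤ β with hT
  rcases T.eq_empty_or_nonempty with he | ⟨z, hz⟩
  · rw [he, Finset.card_empty, Nat.cast_zero]
    positivity
  · rw [hT, mem_filter] at hz
    have hcard : T.card ≤ (Finset.Icc ⌈α⌉₊ ⌊β⌋₊).card := by
      refine Finset.card_le_card_of_injOn f ?_ ?_
      · intro u hu
        rw [Finset.mem_coe, hT, mem_filter] at hu
        rw [Finset.mem_coe, Finset.mem_Icc]
        exact ⟨Nat.ceil_le.2 hu.2.1, Nat.le_floor hu.2.2⟩
      · intro x hx y hy hxy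
        rw [Finset.mem_coe, hT, mem_filter] at hx hy
        exact hf x hx.1 y hy.1 hxy
    rw [Nat.card_Icc] at hcard
    have h1 : ⌈α⌉₊ ≤ f z := Nat.ceil_le.2 hz.2.1
    have h2 : f z ≤ ⌊β⌋₊ := Nat.le_floor hz.2.2
    have h3 : T.card + ⌈α⌉₊ ≤ ⌊β⌋₊ + 1 := by omega
    have h4 : (T.card : ℝ) + (⌈α⌉₊ : ℝ) ≤ (⌊β⌋₊ : ℝ) + 1 := by exact_mod_cast h3
    have h5 : (⌊β⌋₊ : ℝ) ≤ β := Nat.floor_le (le_trans (Nat.cast_nonneg _) hz.2.2)
    have h6 : α ≤ (⌈α⌉₊ : ℝ) := Nat.le_ceil α
    have h7 := le_abs_self (β - α)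
    linarith

private theorem union5 {n : ℕ} (Q S S' : Finset (Fin n)) (f : Fin n → ℕ) (hS : S ⊆ Q)
    (hS' : S' ⊆ Q) (hd : Disjoint S S') (hf : ∀ x ∈ Q, ∀ y ∈ Q, f x = f y → x = y) (h J : ℝ)
    (h1 : ((S.filter fun w => S.card ≤ f w).card : ℝ) ≤
      J + ((Q.card : ℝ) - S.card - S'.card))
    (h2 : ((S'.filter fun u => f u < S.card).card : ℝ) ≤
      J + ((Q.card : ℝ) - S.card - S'.card)) (T : Finset (Fin n)) (hTQ : T ⊆ Q)
    (hT : ∀ u ∈ T, (u ∈ S ∧ h ≤ f u) ∨ (u ∉ S ∧ (f u : ℝ) ≤ h) ∨ (u ∉ S ∧ u ∉ S')) :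
    (T.card : ℝ) ≤ 2 * J + 3 * ((Q.card : ℝ) - S.card - S'.card) +
      2 * (|(S.card : ℝ) - h| + 1) := by
  classical
  set A1 := S.filter fun w => S.card ≤ f w with hA1
  set A2 := S'.filter fun u => f u < S.card with hA2
  set A3 := Q \ (S ∪ S') with hA3
  set A4 := Q.filter fun u => h ≤ (f u : ℝ) ∧ (f u : ℝ) ≤ (S.card : ℝ) with hA4
  set A5 := Q.filter fun u => (S.card : ℝ) ≤ (f u : ℝ) ∧ (f u : ℝ) ≤ h with hA5
  have hsub : T ⊆ A1 ∪ A2 ∪ A3 ∪ A4 ∪ A5 := by
    intro u hu
    have huQ := hTQ hu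
    simp only [Finset.mem_union]
    rcases hT u hu with ⟨g1, g2⟩ | ⟨g1, g2⟩ | ⟨g1, g2⟩
    rotate_left 2
    · left; left; right
      rw [hA3, mem_sdiff, mem_union]
      exact ⟨huQ, fun g5 => g5.elim g1 g2⟩
    · rcases le_or_gt S.card (f u) with g3 | g3
      · left; left; left; left
        rw [hA1, mem_filter]; exact ⟨g1, g3⟩
      · left; right
        rw [hA4, mem_filter]
        exact ⟨huQ, g2, by exact_mod_cast g3.le⟩
    · rcases le_or_gt S.card (f u) with g3 | g3
      · right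
        rw [hA5, mem_filter]
        exact ⟨huQ, by exact_mod_cast g3, g2⟩
      · by_cases g4 : u ∈ S'
        · left; left; left; right
          rw [hA2, mem_filter]; exact ⟨g4, g3⟩
        · left; left; right
          rw [hA3, mem_sdiff, mem_union]
          exact ⟨huQ, fun g5 => g5.elim g1 g4⟩
  have hc : T.card ≤ A1.card + A2.card + A3.card + A4.card + A5.card := by
    refine (Finset.card_le_card hsub).trans ((card_union_le _ _).trans ?_)
    refine Nat.add_le_add_right ((card_union_le _ _).trans ?_) _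
    refine Nat.add_le_add_right ((card_union_le _ _).trans ?_) _
    exact Nat.add_le_add_right (card_union_le _ _) _
  have hc' : (T.card : ℝ) ≤ A1.card + A2.card + A3.card + A4.card + A5.card := by
    exact_mod_cast hc
  have h3 : (A3.card : ℝ) = (Q.card : ℝ) - S.card - S'.card := by
    have g1 : (S ∪ S').card = S.card + S'.card := Finset.card_union_of_disjoint hd
    have g2 : A3.card + (S ∪ S').card = Q.card :=
      Finset.card_sdiff_add_card_eq_card (Finset.union_subset hS hS')
    have g3 : (A3.card : ℝ) + ((S.card : ℝ) + S'.card) = Q.card := by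
      rw [g1] at g2; exact_mod_cast g2
    linarith
  have h4 := between Q f hf h (S.card : ℝ)
  have h5 := between Q f hf (S.card : ℝ) h
  rw [← hA4] at h4
  rw [← hA5] at h5
  rw [abs_sub_comm] at h5
  linarith

private theorem card_prod_filter {n : ℕ} (P Q : Finset (Fin n)) (R : Fin n → Fin n → Prop)
    [∀ a u, Decidable (R a u)] :
    ((P ×ˢ Q).filter fun p => R p.1 p.2).card = ∑ a ∈ P, (Q.filter fun u => R a u).card := by
  rw [Finset.card_filter, Finset.sum_product]
  refine Finset.sum_congr rfl fun a _ => ?_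
  rw [Finset.card_filter]

section
variable {n : ℕ} {s : Fin n → Fin n → ℤ} (hs : Circ s)
include hs

private theorem s_self (a : Fin n) : s a a = 0 := by
  have := hs.sk a a
  omega

private theorem deg_eq (a : Fin n) :
    2 * (univ.filter fun u => s a u = 1).card +
      (univ.filter fun u => a ≠ u ∧ s a u = 0).card + 1 = n := by
  have h1 : ∑ u, s a u = ((univ.filter fun u => s a u = 1).card : ℤ) -
      ((univ.filter fun u => s a u = -1).card : ℤ) := by
    rw [Finset.card_filter, Finset.card_filter]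
    push_cast
    rw [← Finset.sum_sub_distrib]
    refine Finset.sum_congr rfl fun u _ => ?_
    rcases hs.v1 a u with h | h | h <;> rw [h] <;> simp
  rw [hs.row a] at h1
  have h2 : n = (univ.filter fun u => s a u = 1).card + (univ.filter fun u => s a u = -1).card +
      (univ.filter fun u => s a u = 0).card := by
    rw [Finset.card_filter, Finset.card_filter, Finset.card_filter, ← Finset.sum_add_distrib,
      ← Finset.sum_add_distrib]
    have h3 : ∀ u ∈ (univ : Finset (Fin n)), (((if s a u = 1 then 1 else 0) +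
        (if s a u = -1 then 1 else 0)) + (if s a u = 0 then 1 else 0) : ℕ) = 1 := by
      intro u _
      rcases hs.v1 a u with h | h | h <;> rw [h] <;> simp
    rw [Finset.sum_congr rfl h3]
    simp
  have h4 : (univ.filter fun u => s a u = 0).card =
      (univ.filter fun u => a ≠ u ∧ s a u = 0).card + 1 := by
    have h5 : (univ.filter fun u => s a u = 0) =
        insert a (univ.filter fun u => a ≠ u ∧ s a u = 0) := by
      ext u
      simp only [mem_filter, mem_univ, true_and, mem_insert]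
      constructor
      · intro h
        by_cases h6 : u = a
        · exact Or.inl h6
        · exact Or.inr ⟨fun h7 => h6 h7.symm, h⟩
      · rintro (h | h)
        · rw [h]; exact s_self hs a
        · exact h.2
    rw [h5, card_insert_of_notMem]
    simp
  omega

private theorem disj (v : Fin n) : Disjoint (ON s v) (IN s v) := by
  rw [Finset.disjoint_left]
  intro x hx hy
  rw [ON, mem_filter] at hx
  rw [IN, mem_filter] at hy
  have := hs.sk x v
  omega

private theorem outside (v : Fin n) (T : Finset (Fin n)) (hT : ∀ u ∈ T, u ∉ ON s v ∧ u ∉ IN s v ∧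
    u ≠ v) : T.card + (ON s v).card + (IN s v).card + 1 ≤ n := by
  have h1 : v ∉ ON s v ∪ IN s v := by
    rw [mem_union, ON, IN, mem_filter, mem_filter]
    have := s_self hs v
    omega
  have h2 : Disjoint T (insert v (ON s v ∪ IN s v)) := by
    rw [Finset.disjoint_left]
    intro u hu hu2
    rw [mem_insert, mem_union] at hu2
    obtain ⟨g1, g2, g3⟩ := hT u hu
    rcases hu2 with h | h | h
    · exact g3 h
    · exact g1 h
    · exact g2 h
  have h3 := Finset.card_le_univ (T ∪ insert v (ON s v ∪ IN s v))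
  rw [Finset.card_union_of_disjoint h2, card_insert_of_notMem h1,
    Finset.card_union_of_disjoint (disj hs v), Fintype.card_fin] at h3
  omega

/-- The threshold of one row. -/
private theorem threshold (v a : Fin n) (ρ : Fin n → ℕ) (ha : a ∈ ON s v)
    (hρ : ∀ x ∈ ON s v, ∀ y ∈ ON s v, ρ x = ρ y → x = y) (κ : ℝ)
    (hcov : (n : ℝ) - 1 ≤ (ON s v).card + (IN s v).card + κ * n) :
    |(((IN s v).filter fun w => s a w = 1).card : ℝ) -
      ((n : ℝ) / 2 - (ON s v).card + rk (ON s v) ρ a)| ≤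
      1 / 2 + ((univ.filter fun u => a ≠ u ∧ s a u = 0).card : ℝ) / 2 + κ * n +
      (((ON s v).filter fun b => ρ a < ρ b ∧ s a b ≠ 1).card : ℝ) +
      (((ON s v).filter fun b => ρ b < ρ a ∧ s b a ≠ 1).card : ℝ) := by
  classical
  set P := ON s v with hP
  set Q := IN s v with hQ
  have hva : s v a = 1 := by
    rw [hP, ON, mem_filter] at ha
    exact ha.2
  have hav : s a v = -1 := by
    have := hs.sk a v
    omega
  have hdeg := deg_eq hs a
  set od := (univ.filter fun u => s a u = 1).card with hod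
  set m := (univ.filter fun u => a ≠ u ∧ s a u = 0).card with hm
  set k := (P.filter fun b => s a b = 1).card with hk
  set S := (Q.filter fun w => s a w = 1) with hS
  set e := (univ.filter fun u => s a u = 1 ∧ u ∉ P ∧ u ∉ Q).card with he
  have hsplit : od = S.card + k + e := by
    have h1 : (univ.filter fun u => s a u = 1) = (S ∪ (P.filter fun b => s a b = 1)) ∪
        (univ.filter fun u => s a u = 1 ∧ u ∉ P ∧ u ∉ Q) := by
      ext u
      simp only [hS, mem_filter, mem_univ, true_and, mem_union]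
      tauto
    have hd := disj hs v
    rw [hod, h1, Finset.card_union_of_disjoint, Finset.card_union_of_disjoint]
    · rw [Finset.disjoint_left]
      intro u hu hu2
      rw [hS, mem_filter] at hu
      rw [mem_filter] at hu2
      exact Finset.disjoint_left.1 hd hu2.1 hu.1
    · rw [Finset.disjoint_left]
      intro u hu hu2
      rw [mem_union, hS, mem_filter, mem_filter] at hu
      rw [mem_filter] at hu2
      rcases hu with h | h
      · exact hu2.2.2.2 h.1
      · exact hu2.2.2.1 h.1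
  have hout : e + P.card + Q.card + 1 ≤ n := by
    refine outside hs v _ ?_
    intro u hu
    rw [mem_filter] at hu
    refine ⟨hu.2.2.1, hu.2.2.2, ?_⟩
    rintro rfl
    rw [hav] at hu
    omega
  set r := rk P ρ a with hr
  set g := (P.filter fun b => ρ a < ρ b).card with hg
  set β1 := (P.filter fun b => ρ a < ρ b ∧ s a b ≠ 1).card with hβ1
  set β2 := (P.filter fun b => ρ b < ρ a ∧ s b a ≠ 1).card with hβ2
  have hgr : g + r + 1 = P.card := by
    have h1 : P = insert a ((P.filter fun b => ρ a < ρ b) ∪ (P.filter fun b => ρ b < ρ a)) := by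
      ext b
      simp only [mem_insert, mem_union, mem_filter]
      constructor
      · intro hb
        rcases lt_trichotomy (ρ a) (ρ b) with h | h | h
        · exact Or.inr (Or.inl ⟨hb, h⟩)
        · exact Or.inl (hρ b hb a ha h.symm)
        · exact Or.inr (Or.inr ⟨hb, h⟩)
      · rintro (h | h | h)
        · rw [h]; exact ha
        · exact h.1
        · exact h.1
    have h2 : P.card = ((P.filter fun b => ρ a < ρ b) ∪ (P.filter fun b => ρ b < ρ a)).card + 1 := by
      conv_lhs => rw [h1]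
      rw [card_insert_of_notMem]
      simp
    have h3 : Disjoint (P.filter fun b => ρ a < ρ b) (P.filter fun b => ρ b < ρ a) := by
      rw [Finset.disjoint_left]
      intro u hu hu2
      rw [mem_filter] at hu hu2
      omega
    rw [Finset.card_union_of_disjoint h3] at h2
    rw [h2]
    rfl
  have hk1 : k ≤ g + β2 := by
    rw [hk, hg, hβ2]
    refine le_trans (Finset.card_le_card ?_) (card_union_le _ _)
    intro b hb
    rw [mem_filter] at hb
    rw [mem_union, mem_filter, mem_filter]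
    rcases lt_trichotomy (ρ a) (ρ b) with h | h | h
    · exact Or.inl ⟨hb.1, h⟩
    · exfalso
      have h2 := hρ a ha b hb.1 h
      rw [← h2, s_self hs a] at hb
      omega
    · refine Or.inr ⟨hb.1, h, ?_⟩
      have := hs.sk a b
      omega
  have hk2 : g ≤ k + β1 := by
    rw [hk, hg, hβ1]
    refine le_trans (Finset.card_le_card ?_) (card_union_le _ _)
    intro b hb
    rw [mem_filter] at hb
    rw [mem_union, mem_filter, mem_filter]
    by_cases h : s a b = 1
    · exact Or.inl ⟨hb.1, h⟩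
    · exact Or.inr ⟨hb.1, hb.2, h⟩
  have c1 : 2 * (od : ℝ) + m + 1 = n := by exact_mod_cast hdeg
  have c2 : (od : ℝ) = S.card + k + e := by exact_mod_cast hsplit
  have c3 : (e : ℝ) + P.card + Q.card + 1 ≤ n := by exact_mod_cast hout
  have c4 : (g : ℝ) + r + 1 = P.card := by exact_mod_cast hgr
  have c5 : (k : ℝ) ≤ g + β2 := by exact_mod_cast hk1
  have c6 : (g : ℝ) ≤ k + β1 := by exact_mod_cast hk2
  have c7 : (0 : ℝ) ≤ e := Nat.cast_nonneg _
  have c8 : (0 : ℝ) ≤ m := Nat.cast_nonneg _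
  have c9 : (0 : ℝ) ≤ β1 := Nat.cast_nonneg _
  have c10 : (0 : ℝ) ≤ β2 := Nat.cast_nonneg _
  have c11 : (0 : ℝ) ≤ κ * n := by linarith
  rw [abs_le]
  constructor <;> linarith

omit hs in
/-- The number of inversions. -/
private theorem inversions (v : Fin n) (ρ : Fin n → ℕ) :
    ∑ a ∈ ON s v, ((((IN s v).filter fun w => s a w = 1) ×ˢ
      ((IN s v).filter fun w => s w a = 1)).filter fun p => ρ p.2 < ρ p.1).card ≤
      wv s v + n * bw s (IN s v) ρ := by
  classical
  set Q := IN s v with hQ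
  have h1 : ∀ a ∈ ON s v, ((((Q.filter fun w => s a w = 1) ×ˢ
      (Q.filter fun w => s w a = 1)).filter fun p => ρ p.2 < ρ p.1).card) ≤
      (univ.filter fun p : Fin n × Fin n => WT s p.1 v a p.2).card + bw s Q ρ := by
    intro a ha
    rw [ON, mem_filter] at ha
    have h2 : ((((Q.filter fun w => s a w = 1) ×ˢ
      (Q.filter fun w => s w a = 1)).filter fun p => ρ p.2 < ρ p.1).card) ≤
      ((univ.filter fun p : Fin n × Fin n => WT s p.1 v a p.2) ∪
        ((Q ×ˢ Q).filter fun p => ρ p.1 < ρ p.2 ∧ s p.1 p.2 ≠ 1)).card := by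
      refine Finset.card_le_card_of_injOn Prod.swap ?_ ?_
      · intro p hp
        rw [Finset.mem_coe, mem_filter, mem_product, mem_filter, mem_filter] at hp
        obtain ⟨⟨⟨g1, g2⟩, g3, g4⟩, g5⟩ := hp
        rw [Finset.mem_coe, mem_union, mem_filter, mem_filter]
        have g1' := g1
        have g3' := g3
        rw [hQ, IN, mem_filter] at g1' g3'
        by_cases g6 : s p.2 p.1 = 1
        · left
          exact ⟨mem_univ _, g3'.2, g4, g6, ha.2, g2, g1'.2⟩
        · right
          refine ⟨?_, g5, g6⟩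
          rw [mem_product]
          exact ⟨g3, g1⟩
      · intro x _ y _ hxy
        exact Prod.swap_injective hxy
    exact h2.trans (card_union_le _ _)
  refine (Finset.sum_le_sum h1).trans ?_
  rw [Finset.sum_add_distrib, Finset.sum_const, smul_eq_mul]
  refine Nat.add_le_add ?_ ?_
  · have h2 : wv s v = ∑ a, (univ.filter fun p : Fin n × Fin n => WT s p.1 v a p.2).card := by
      unfold wv
      have h3 : ∀ a : Fin n, (univ.filter fun p : Fin n × Fin n => WT s p.1 v a p.2).card =
          ∑ u : Fin n, ∑ w : Fin n, if WT s u v a w then 1 else 0 := by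
        intro a
        rw [Finset.card_filter, Fintype.sum_prod_type]
      rw [Finset.sum_congr rfl (fun a _ => h3 a), Finset.sum_comm, Finset.card_filter,
        Fintype.sum_prod_type]
      refine Finset.sum_congr rfl fun u _ => ?_
      rw [Fintype.sum_prod_type]
    rw [h2]
    exact Finset.sum_le_sum_of_subset (Finset.subset_univ _)
  · refine Nat.mul_le_mul_right _ ?_
    have := Finset.card_le_univ (ON s v)
    rwa [Fintype.card_fin] at this

end

theorem hHLF : StHLF := by
  classical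
  intro hINV ε hε
  refine ⟨min 1 ((ε / 26) ^ 2), ⌈6 / ε⌉₊ + 1, by positivity, ?_⟩
  intro n hn s v ρP ρQ hs hmis hcov hwv hρP hρQ hbP hbQ
  set κ : ℝ := min 1 ((ε / 26) ^ 2) with hκ
  have hκ0 : 0 < κ := by rw [hκ]; positivity
  set t : ℝ := Real.sqrt κ with ht
  have htt : t * t = κ := Real.mul_self_sqrt hκ0.le
  have ht0 : 0 ≤ t := Real.sqrt_nonneg _
  have ht1 : t ≤ 1 := by
    rw [ht]
    calc Real.sqrt κ ≤ Real.sqrt 1 := Real.sqrt_le_sqrt (min_le_left _ _)
      _ = 1 := Real.sqrt_one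
  have ht2 : t ≤ ε / 26 := by
    rw [ht]
    calc Real.sqrt κ ≤ Real.sqrt ((ε / 26) ^ 2) := Real.sqrt_le_sqrt (min_le_right _ _)
      _ = ε / 26 := Real.sqrt_sq (by positivity)
  have hκt : κ ≤ t := by nlinarith
  have hnR : 6 / ε ≤ (n : ℝ) := by
    have h1 : (⌈6 / ε⌉₊ : ℝ) ≤ n := by exact_mod_cast (by omega : ⌈6 / ε⌉₊ ≤ n)
    exact (Nat.le_ceil _).trans h1
  have hn0 : (0 : ℝ) ≤ n := Nat.cast_nonneg n
  have hn6 : 6 ≤ ε * n := by rwa [div_le_iff₀' hε] at hnR
  set P := ON s v with hP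
  set Q := IN s v with hQ
  set S : Fin n → Finset (Fin n) := fun a => Q.filter fun w => s a w = 1 with hS
  set S' : Fin n → Finset (Fin n) := fun a => Q.filter fun w => s w a = 1 with hS'
  set inv : Fin n → ℝ := fun a =>
    ((((S a) ×ˢ (S' a)).filter fun p => ρQ p.2 < ρQ p.1).card : ℝ) with hinv
  set μ : Fin n → ℝ := fun a => (Q.card : ℝ) - (S a).card - (S' a).card with hμ
  set h : Fin n → ℝ := fun a => (n : ℝ) / 2 - P.card + rk P ρP a with hh
  set m : Fin n → ℕ := fun a => (univ.filter fun u => a ≠ u ∧ s a u = 0).card with hm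
  set β1 : Fin n → ℕ := fun a => (P.filter fun b => ρP a < ρP b ∧ s a b ≠ 1).card with hβ1
  set β2 : Fin n → ℕ := fun a => (P.filter fun b => ρP b < ρP a ∧ s b a ≠ 1).card with hβ2
  set B : Fin n → ℝ := fun a => 2 * Real.sqrt (inv a) + 3 * μ a +
    2 * (|((S a).card : ℝ) - h a| + 1) with hB
  have hSQ : ∀ a, S a ⊆ Q := fun a => Finset.filter_subset _ _
  have hSQ' : ∀ a, S' a ⊆ Q := fun a => Finset.filter_subset _ _
  have hdis : ∀ a, Disjoint (S a) (S' a) := by
    intro a
    rw [Finset.disjoint_left]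
    intro u hu hu2
    simp only [hS, hS', mem_filter] at hu hu2
    have := hs.sk a u
    omega
  have hrkQ : ∀ x ∈ Q, ∀ y ∈ Q, rk Q ρQ x = rk Q ρQ y → x = y := rk_inj Q ρQ hρQ
  -- the two row bounds
  have hrow : ∀ a ∈ P, ∀ T : Finset (Fin n), T ⊆ Q →
      (∀ u ∈ T, (u ∈ S a ∧ h a ≤ rk Q ρQ u) ∨ (u ∉ S a ∧ (rk Q ρQ u : ℝ) ≤ h a) ∨
        (u ∉ S a ∧ u ∉ S' a)) → (T.card : ℝ) ≤ B a := by
    intro a _ T hTQ hT
    obtain ⟨g1, g2⟩ := hINV n Q (S a) (S' a) ρQ (hSQ a) (hSQ' a) (hdis a) hρQ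
    exact union5 Q (S a) (S' a) (rk Q ρQ) (hSQ a) (hSQ' a) (hdis a) hrkQ (h a)
      (Real.sqrt (inv a)) g1 g2 T hTQ hT
  -- total of the bounds
  have hPn : (P.card : ℝ) ≤ n := by
    have := Finset.card_le_univ P
    rw [Fintype.card_fin] at this
    exact_mod_cast this
  have hsq : ∑ a ∈ P, Real.sqrt (inv a) ≤ 3 / 2 * t * (n : ℝ) ^ 2 := by
    have g1 : (∑ a ∈ P, Real.sqrt (inv a)) ^ 2 ≤ (P.card : ℝ) * ∑ a ∈ P, inv a := by
      have g2 := Finset.sum_mul_sq_le_sq_mul_sq P (fun _ => (1 : ℝ)) (fun a => Real.sqrt (inv a))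
      simp only [one_mul, one_pow, Finset.sum_const, nsmul_eq_mul, mul_one] at g2
      refine g2.trans (le_of_eq ?_)
      congr 1
      refine Finset.sum_congr rfl fun a _ => ?_
      exact Real.sq_sqrt (Nat.cast_nonneg _)
    have g2 : ∑ a ∈ P, inv a ≤ 2 * κ * (n : ℝ) ^ 3 := by
      have g3 := inversions (s := s) v ρQ
      have g4 : ∑ a ∈ P, inv a ≤ (wv s v : ℝ) + n * (bw s Q ρQ : ℝ) := by
        simp only [hinv, hS, hS']
        exact_mod_cast g3
      have g5 : (n : ℝ) * (bw s Q ρQ : ℝ) ≤ n * (κ * (n : ℝ) ^ 2) :=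
        mul_le_mul_of_nonneg_left hbQ hn0
      nlinarith
    have g3 : 0 ≤ ∑ a ∈ P, inv a := Finset.sum_nonneg fun a _ => Nat.cast_nonneg _
    have g4 : (∑ a ∈ P, Real.sqrt (inv a)) ^ 2 ≤ (3 / 2 * t * (n : ℝ) ^ 2) ^ 2 := by
      calc (∑ a ∈ P, Real.sqrt (inv a)) ^ 2 ≤ (P.card : ℝ) * ∑ a ∈ P, inv a := g1
        _ ≤ n * (2 * κ * (n : ℝ) ^ 3) := mul_le_mul hPn g2 g3 hn0
        _ = 2 * κ * (n : ℝ) ^ 4 := by ring
        _ ≤ 9 / 4 * κ * (n : ℝ) ^ 4 := by
            apply mul_le_mul_of_nonneg_right _ (by positivity)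
            linarith
        _ = (3 / 2 * t * (n : ℝ) ^ 2) ^ 2 := by rw [← htt]; ring
    exact le_of_pow_le_pow_left₀ (by norm_num) (by positivity) g4
  have hmm : ∑ a ∈ P, (m a : ℝ) ≤ κ * (n : ℝ) ^ 2 := by
    refine le_trans ?_ hmis
    have g1 : mis s = ∑ a, m a := by
      unfold mis
      rw [Finset.card_filter, Fintype.sum_prod_type]
      refine Finset.sum_congr rfl fun a _ => ?_
      simp only [hm]
      rw [Finset.card_filter]
    have g2 : ∑ a ∈ P, m a ≤ mis s := by
      rw [g1]; exact Finset.sum_le_sum_of_subset (Finset.subset_univ _)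
    exact_mod_cast g2
  have hμm : ∀ a ∈ P, μ a ≤ m a := by
    intro a ha
    have g1 : Q.card ≤ (S a).card + (S' a).card + m a := by
      refine le_trans (Finset.card_le_card (t := S a ∪ S' a ∪
        (univ.filter fun u => a ≠ u ∧ s a u = 0)) ?_) ?_
      · intro u hu
        have hva : s v a = 1 := by
          rw [hP, ON, mem_filter] at ha
          exact ha.2
        have huv : s u v = 1 := by
          have hu' := hu
          rw [hQ, IN, mem_filter] at hu'
          exact hu'.2
        rw [mem_union, mem_union]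
        rcases hs.v1 a u with g | g | g
        · left; right
          simp only [hS', mem_filter]
          have := hs.sk a u
          exact ⟨hu, by omega⟩
        · right
          rw [mem_filter]
          refine ⟨mem_univ _, ?_, g⟩
          rintro rfl
          have := hs.sk v a
          omega
        · left; left
          simp only [hS, mem_filter]
          exact ⟨hu, g⟩
      · exact (card_union_le _ _).trans (Nat.add_le_add_right (card_union_le _ _) _)
    have g2 : (Q.card : ℝ) ≤ (S a).card + (S' a).card + m a := by exact_mod_cast g1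
    simp only [hμ]
    linarith
  have hβs1 : ∑ a ∈ P, (β1 a : ℝ) ≤ κ * (n : ℝ) ^ 2 := by
    refine le_trans (le_of_eq ?_) hbP
    have g1 : bw s P ρP = ∑ a ∈ P, β1 a := by
      unfold bw
      exact card_prod_filter P P fun x y => ρP x < ρP y ∧ s x y ≠ 1
    rw [g1]; push_cast; rfl
  have hβs2 : ∑ a ∈ P, (β2 a : ℝ) ≤ κ * (n : ℝ) ^ 2 := by
    refine le_trans (le_of_eq ?_) hbP
    have g1 : bw s P ρP = ∑ a ∈ P, β2 a := by
      unfold bw
      rw [Finset.card_filter, Finset.sum_product_right]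
      refine Finset.sum_congr rfl fun a _ => ?_
      simp only [hβ2]
      rw [Finset.card_filter]
    rw [g1]; push_cast; rfl
  have hthr : ∀ a ∈ P, |((S a).card : ℝ) - h a| ≤ 1 / 2 + (m a : ℝ) / 2 + κ * n + (β1 a : ℝ) +
      (β2 a : ℝ) := by
    intro a ha
    exact threshold hs v a ρP ha hρP κ hcov
  have htotal : ∑ a ∈ P, B a ≤ ε * (n : ℝ) ^ 2 := by
    have g1 : ∑ a ∈ P, B a ≤ ∑ a ∈ P, (2 * Real.sqrt (inv a) + 4 * (m a : ℝ) + 2 * (β1 a : ℝ) +
        2 * (β2 a : ℝ) + (3 + 2 * κ * n)) := by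
      refine Finset.sum_le_sum fun a ha => ?_
      have g2 := hthr a ha
      have g3 := hμm a ha
      simp only [hB]
      linarith
    refine g1.trans ?_
    rw [Finset.sum_add_distrib, Finset.sum_add_distrib, Finset.sum_add_distrib,
      Finset.sum_add_distrib, ← Finset.mul_sum, ← Finset.mul_sum, ← Finset.mul_sum,
      ← Finset.mul_sum, Finset.sum_const, nsmul_eq_mul]
    have g4 : (P.card : ℝ) * (3 + 2 * κ * n) ≤ n * (3 + 2 * κ * n) :=
      mul_le_mul_of_nonneg_right hPn (by positivity)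
    have g5 : κ * (n : ℝ) ^ 2 ≤ t * (n : ℝ) ^ 2 := mul_le_mul_of_nonneg_right hκt (by positivity)
    have g6 : t * (n : ℝ) ^ 2 ≤ ε / 26 * (n : ℝ) ^ 2 :=
      mul_le_mul_of_nonneg_right ht2 (by positivity)
    have g7 : 6 * (n : ℝ) ≤ ε * n * n := mul_le_mul_of_nonneg_right hn6 hn0
    nlinarith
  have hcount : ∀ (R : Fin n → Fin n → Prop) [∀ a u, Decidable (R a u)],
      (∀ a ∈ P, ∀ u ∈ Q, R a u → (u ∈ S a ∧ h a ≤ rk Q ρQ u) ∨
        (u ∉ S a ∧ (rk Q ρQ u : ℝ) ≤ h a) ∨ (u ∉ S a ∧ u ∉ S' a)) →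
      (((P ×ˢ Q).filter fun p => R p.1 p.2).card : ℝ) ≤ ε * (n : ℝ) ^ 2 := by
    intro R _ hR
    rw [card_prod_filter P Q R]
    push_cast
    refine le_trans (Finset.sum_le_sum fun a ha => ?_) htotal
    refine hrow a ha _ (Finset.filter_subset _ _) ?_
    intro u hu
    rw [mem_filter] at hu
    exact hR a ha u hu.1 hu.2
  constructor
  · refine hcount (fun a u => ¬ (s a u = 1 ↔
      2 * (P.card + rk Q ρQ u) < n + 2 * rk P ρP a)) ?_
    intro a ha u hu hR
    by_cases h1 : s a u = 1
    · left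
      refine ⟨by simp only [hS, mem_filter]; exact ⟨hu, h1⟩, ?_⟩
      have h2 : ¬ (2 * (P.card + rk Q ρQ u) < n + 2 * rk P ρP a) := fun h3 =>
        hR ⟨fun _ => h3, fun _ => h1⟩
      have h3 : n + 2 * rk P ρP a ≤ 2 * (P.card + rk Q ρQ u) := by omega
      have h4 : (n : ℝ) + 2 * rk P ρP a ≤ 2 * (P.card + rk Q ρQ u) := by exact_mod_cast h3
      simp only [hh]
      linarith
    · right; left
      refine ⟨by simp only [hS, mem_filter]; exact fun h2 => h1 h2.2, ?_⟩
      have h2 : 2 * (P.card + rk Q ρQ u) < n + 2 * rk P ρP a := by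
        by_contra h3
        exact hR ⟨fun h4 => absurd h4 h1, fun h4 => absurd h4 h3⟩
      have h4 : 2 * ((P.card : ℝ) + rk Q ρQ u) < n + 2 * rk P ρP a := by exact_mod_cast h2
      simp only [hh]
      linarith
  · refine hcount (fun a u => ¬ (s u a = 1 ↔
      n + 2 * rk P ρP a < 2 * (P.card + rk Q ρQ u))) ?_
    intro a ha u hu hR
    by_cases h1 : s a u = 1
    · left
      refine ⟨by simp only [hS, mem_filter]; exact ⟨hu, h1⟩, ?_⟩
      have h0 : s u a ≠ 1 := by
        have := hs.sk a u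
        omega
      have h2 : n + 2 * rk P ρP a < 2 * (P.card + rk Q ρQ u) := by
        by_contra h3
        exact hR ⟨fun h4 => absurd h4 h0, fun h4 => absurd h4 h3⟩
      have h4 : (n : ℝ) + 2 * rk P ρP a < 2 * (P.card + rk Q ρQ u) := by exact_mod_cast h2
      simp only [hh]
      linarith
    · right
      by_cases h5 : s u a = 1
      · left
        refine ⟨by simp only [hS, mem_filter]; exact fun h2 => h1 h2.2, ?_⟩
        have h2 : ¬ (n + 2 * rk P ρP a < 2 * (P.card + rk Q ρQ u)) := fun h3 =>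
          hR ⟨fun _ => h3, fun _ => h5⟩
        have h3 : 2 * (P.card + rk Q ρQ u) ≤ n + 2 * rk P ρP a := by omega
        have h4 : 2 * ((P.card : ℝ) + rk Q ρQ u) ≤ n + 2 * rk P ρP a := by exact_mod_cast h3
        simp only [hh]
        linarith
      · right
        refine ⟨by simp only [hS, mem_filter]; exact fun h2 => h1 h2.2, ?_⟩
        simp only [hS', mem_filter]; exact fun h2 => h5 h2.2

end Pool.Agent.Helper13.SY
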